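import Pool.Agent.Lib.MP_8c24b6_lc.Det.P

/-!
MP_8c24b6_lc: the factor 2 is optimal for deterministic streaming algorithms with sublinear memory,
for any number of passes, and for randomised ones with one-sided error.
-/

namespace Pool.Agent.Results.MP_8c24b6_lc.FactorTwoOptimal

open Finset MP8C MP8D MeasureTheory
open scoped ENNReal

/-- randomised algorithms that never overestimate -/
theorem never_over {α : ℝ} (h1 : 1 ≤ α) (h2 : α < 2) :
    ∃ c : ℝ, 0 < c ∧ ∃ k₀ : ℕ, ∀ n k : ℕ, k₀ ≤ k → k ≤ n → ∀ (p s : ℕ) (θ : ℝ), 0 < θ → θ ≤ 1 →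
      ∀ (Ω : Type) [MeasurableSpace Ω] (μ : Measure Ω) [IsProbabilityMeasure μ]
        (alg : Ω → PassAlg s),
        (∀ x : List Base, x.length = n → alternations x ≤ k →
          (∀ᵐ ω ∂μ, (alg ω).run p x ≤ opt x) ∧
          MeasurableSet {ω | (opt x : ℝ) ≤ α * (alg ω).run p x} ∧
          ENNReal.ofReal θ ≤ μ {ω | (opt x : ℝ) ≤ α * (alg ω).run p x}) →
        c * k ≤ s * p + Real.logb 4 (1 / θ) := by
  obtain ⟨K, hK⟩ := exists_nat_ge (20 / (2 - α))
  have h2' : 0 < 2 - α := by linarith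
  have hK20 : (20 : ℝ) ≤ K := by
    rw [div_le_iff₀ h2'] at hK
    have : (0 : ℝ) ≤ K := by positivity
    nlinarith
  have hKn : 20 ≤ K := by exact_mod_cast hK20
  have hK0 : 0 < K := by omega
  have hl : 0 < ll K := by
    have := dd_pos hK0
    unfold ll
    positivity
  have hlr : (0 : ℝ) < ll K := by exact_mod_cast hl
  refine ⟨1 / (8 * ll K), by positivity, 8 * K * ll K, ?_⟩
  intro n k hk hkn p s θ hθ hθ1 Ω _ μ _ alg halg
  obtain ⟨g, m, r, hg, hm, hr, hn, hk1, hk2⟩ := params hK0 hk hkn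
  have hx : ∀ a b : Fin m → Fin (tt K), (str K g m r a b).length = n ∧
      alternations (str K g m r a b) ≤ k := by
    intro a b
    refine ⟨by rw [str_length]; exact hn, ?_⟩
    exact (alternations_le (K := K) (L₀ := ll K) (m := m) (r := r) hg).trans hk1
  -- the set of the random seeds with an overestimate on one of the strings
  have hbad : μ (⋃ ab : (Fin m → Fin (tt K)) × (Fin m → Fin (tt K)),
      {ω | ¬ (alg ω).run p (str K g m r ab.1 ab.2) ≤ opt (str K g m r ab.1 ab.2)}) = 0 := by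
    rw [measure_iUnion_null_iff]
    intro ab
    exact (halg _ (hx ab.1 ab.2).1 (hx ab.1 ab.2).2).1
  obtain ⟨ω, hω, G, hG, hcard⟩ := exists_good μ
    (fun a : Fin m → Fin (tt K) =>
      {ω | (opt (str K g m r a a) : ℝ) ≤ α * (alg ω).run p (str K g m r a a)})
    (fun a => (halg _ (hx a a).1 (hx a a).2).2.1) hθ
    (fun a => (halg _ (hx a a).1 (hx a a).2).2.2) _ hbad
  have hcard' : θ * (tt K : ℝ) ^ m ≤ G.card := by
    rw [Fintype.card_fun, Fintype.card_fin, Fintype.card_fin] at hcard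
    push_cast at hcard
    exact hcard
  have hover : ∀ a b, (alg ω).run p (str K g m r a b) ≤ opt (str K g m r a b) := by
    intro a b
    by_contra hcon
    exact hω (Set.mem_iUnion.mpr ⟨(a, b), hcon⟩)
  have hmain := main_count h1 h2 hK (by omega) hg hm hr (alg ω) G hG hover hθ hcard'
  have hmsp : (m : ℝ) ≤ s * p + Real.logb 4 (1 / θ) := by
    have h3 : (4 : ℝ) ^ m ≤ 4 ^ (s * p) * (1 / θ) := by
      rw [mul_one_div, le_div_iff₀ hθ]
      linarith
    have h4 := Real.logb_le_logb_of_le (by norm_num : (1 : ℝ) < 4) (by positivity) h3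
    rw [Real.logb_mul (by positivity) (by positivity), Real.logb_pow, Real.logb_pow,
      Real.logb_self_eq_one (by norm_num)] at h4
    push_cast at h4
    linarith
  have hkm : (k : ℝ) ≤ 8 * ll K * m := by exact_mod_cast hk2
  calc 1 / (8 * (ll K : ℝ)) * k ≤ 1 / (8 * ll K) * (8 * ll K * m) :=
        mul_le_mul_of_nonneg_left hkm (by positivity)
    _ = m := by field_simp
    _ ≤ _ := hmsp

/-- randomised algorithms that never underestimate -/
theorem never_under {α : ℝ} (h1 : 1 ≤ α) (h2 : α < 2) :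
    ∃ c : ℝ, 0 < c ∧ ∃ k₀ : ℕ, ∀ n k : ℕ, k₀ ≤ k → k ≤ n → ∀ (p s : ℕ) (θ : ℝ), 0 < θ → θ ≤ 1 →
      ∀ (Ω : Type) [MeasurableSpace Ω] (μ : Measure Ω) [IsProbabilityMeasure μ]
        (alg : Ω → PassAlg s),
        (∀ x : List Base, x.length = n → alternations x ≤ k →
          (∀ᵐ ω ∂μ, (opt x : ℝ) ≤ α * (alg ω).run p x) ∧
          MeasurableSet {ω | (alg ω).run p x ≤ opt x} ∧
          ENNReal.ofReal θ ≤ μ {ω | (alg ω).run p x ≤ opt x}) →
        c * k ≤ s * p + Real.logb 4 (1 / θ) := by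
  obtain ⟨K, hK⟩ := exists_nat_ge (20 / (2 - α))
  have h2' : 0 < 2 - α := by linarith
  have hK20 : (20 : ℝ) ≤ K := by
    rw [div_le_iff₀ h2'] at hK
    have : (0 : ℝ) ≤ K := by positivity
    nlinarith
  have hKn : 20 ≤ K := by exact_mod_cast hK20
  have hK0 : 0 < K := by omega
  have hl : 0 < ll K := by
    have := dd_pos hK0
    unfold ll
    positivity
  have hlr : (0 : ℝ) < ll K := by exact_mod_cast hl
  have hγ : 0 < (2 - α) ^ 2 / 4 := by positivity
  set R := rho ((2 - α) ^ 2 / 4) with hR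
  have hR0 : 0 < R := rho_pos hγ
  have hR1 : R < 1 := rho_lt_one hγ
  set lam := Real.logb 4 (1 / R) with hlam
  have hlam0 : 0 < lam := by
    rw [hlam]
    apply Real.logb_pos (by norm_num)
    rw [lt_div_iff₀ hR0]
    linarith
  obtain ⟨m₀, hm₀⟩ := exists_nat_ge (1 / lam)
  set c' := min (1 / 2) (lam / 2) with hc'
  have hc'0 : 0 < c' := lt_min (by norm_num) (by linarith)
  refine ⟨c' / (8 * ll K), by positivity, 8 * K * ll K + 8 * ll K * m₀, ?_⟩
  intro n k hk hkn p s θ hθ hθ1 Ω _ μ _ alg halg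
  obtain ⟨g, m, r, hg, hm, hr, hn, hk1, hk2⟩ := params hK0 (by omega) hkn
  have hmm : m₀ ≤ m := by
    have h3 : 8 * ll K * m₀ ≤ 8 * ll K * m := by omega
    exact Nat.le_of_mul_le_mul_left h3 (by positivity)
  have hmlam : 1 ≤ m * lam := by
    have h3 : (m₀ : ℝ) ≤ m := by exact_mod_cast hmm
    rw [div_le_iff₀ hlam0] at hm₀
    nlinarith
  have hm1 : (1 : ℝ) ≤ m := by
    have : 1 ≤ m := by omega
    exact_mod_cast this
  have hx : ∀ a b : Fin m → Fin (tt K), (str K g m r a b).length = n ∧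
      alternations (str K g m r a b) ≤ k := by
    intro a b
    refine ⟨by rw [str_length]; exact hn, ?_⟩
    exact (alternations_le (K := K) (L₀ := ll K) (m := m) (r := r) hg).trans hk1
  -- the set of the random seeds with an underestimate on one of the strings
  have hbad : μ (⋃ ab : (Fin m → Fin (tt K)) × (Fin m → Fin (tt K)),
      {ω | ¬ (opt (str K g m r ab.1 ab.2) : ℝ) ≤ α * (alg ω).run p (str K g m r ab.1 ab.2)}) = 0 := by
    rw [measure_iUnion_null_iff]
    intro ab
    exact (halg _ (hx ab.1 ab.2).1 (hx ab.1 ab.2).2).1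
  obtain ⟨ω, hω, G, hG, hcard⟩ := exists_good μ
    (fun ab : (Fin m → Fin (tt K)) × (Fin m → Fin (tt K)) =>
      {ω | (alg ω).run p (str K g m r ab.1 ab.2) ≤ opt (str K g m r ab.1 ab.2)})
    (fun ab => (halg _ (hx ab.1 ab.2).1 (hx ab.1 ab.2).2).2.1) hθ
    (fun ab => (halg _ (hx ab.1 ab.2).1 (hx ab.1 ab.2).2).2.2) _ hbad
  have hcard' : θ * ((tt K : ℝ) ^ m) ^ 2 ≤ G.card := by
    rw [Fintype.card_prod, Fintype.card_fun, Fintype.card_fin, Fintype.card_fin] at hcard
    push_cast at hcard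
    rw [sq]
    exact hcard
  have hunder : ∀ a b, (opt (str K g m r a b) : ℝ) ≤ α * (alg ω).run p (str K g m r a b) := by
    intro a b
    by_contra hcon
    exact hω (Set.mem_iUnion.mpr ⟨(a, b), hcon⟩)
  have hmain := under_count h1 h2 hK (by omega) hg hm hr (alg ω) G hG hunder hcard'
  rw [← hR] at hmain
  have hmsp : m * c' ≤ s * p + Real.logb 4 (1 / θ) := by
    have h4m : (0 : ℝ) < 4 ^ m := by positivity
    have hsp : (0 : ℝ) ≤ s * p := by positivity
    have hhalf : Real.logb 4 (1 / 2) = -(1 / 2) := by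
      have e : (1 / 2 : ℝ) = (4 : ℝ) ^ (-(1 / 2) : ℝ) := by
        rw [show (4 : ℝ) = 2 ^ (2 : ℝ) by norm_num, ← Real.rpow_mul (by norm_num)]
        norm_num
      rw [e, Real.logb_rpow (by norm_num) (by norm_num)]
      norm_num
    by_cases hcase : θ ≤ 2 / 4 ^ m
    · have h3 : (4 : ℝ) ^ m * (1 / 2) ≤ 1 / θ := by
        rw [le_div_iff₀ hθ]
        rw [le_div_iff₀ h4m] at hcase
        linarith
      have h4 := Real.logb_le_logb_of_le (by norm_num : (1 : ℝ) < 4) (by positivity) h3
      rw [Real.logb_mul (by positivity) (by norm_num), Real.logb_pow,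
        Real.logb_self_eq_one (by norm_num), hhalf] at h4
      have h5 : m * c' ≤ m * (1 / 2) := mul_le_mul_of_nonneg_left (min_le_left _ _) (by linarith)
      linarith
    · push Not at hcase
      rw [div_lt_iff₀ h4m] at hcase
      have h3 : (1 / R) ^ m * (1 / 2) ≤ 4 ^ (s * p) * (1 / θ) := by
        have h5 : 1 / 4 ^ m < θ / 2 := by
          rw [div_lt_iff₀ h4m]
          linarith
        have h6 : θ / 2 ≤ 4 ^ (s * p) * R ^ m := by linarith
        have h7 : (1 / R) ^ m * (1 / 2) = 1 / (2 * R ^ m) := by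
          rw [one_div_pow]
          field_simp
        rw [h7, mul_one_div, div_le_div_iff₀ (by positivity) hθ]
        linarith
      have h4 := Real.logb_le_logb_of_le (by norm_num : (1 : ℝ) < 4) (by positivity) h3
      rw [Real.logb_mul (by positivity) (by norm_num), Real.logb_mul (by positivity) (by positivity),
        Real.logb_pow, Real.logb_pow, Real.logb_self_eq_one (by norm_num), hhalf, ← hlam] at h4
      push_cast at h4
      have h5 : m * c' ≤ m * (lam / 2) := mul_le_mul_of_nonneg_left (min_le_right _ _) (by linarith)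
      linarith
  have hkm : (k : ℝ) ≤ 8 * ll K * m := by exact_mod_cast hk2
  calc c' / (8 * (ll K : ℝ)) * k ≤ c' / (8 * ll K) * (8 * ll K * m) :=
        mul_le_mul_of_nonneg_left hkm (by positivity)
    _ = m * c' := by field_simp
    _ ≤ _ := hmsp

/-- Let `1 ≤ α < 2`.  There are `c > 0` and `k₀` such that for all `n ≥ k ≥ k₀`, on the RNA strings of
length `n` with at most `k` changes between `{A, C}` and `{G, U}`:
(a) every deterministic algorithm with `p` passes and `s` bits of memory that outputs a number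
between `OPT / α` and `OPT` has `s p ≥ c k`;
(b) every randomised algorithm with `p` passes and `s` bits with one-sided error, of either kind, has
`s p + log_4 (1/θ) ≥ c k`; here one-sided error means that either it never outputs more than `OPT`
and outputs at least `OPT / α` with probability at least `θ`, or it never outputs less than
`OPT / α` and outputs at most `OPT` with probability at least `θ`.
For `k = n` there is no restriction on the strings. -/
theorem result {α : ℝ} (h1 : 1 ≤ α) (h2 : α < 2) :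
    ∃ c : ℝ, 0 < c ∧ ∃ k₀ : ℕ, ∀ n k : ℕ, k₀ ≤ k → k ≤ n → ∀ p s : ℕ,
      (∀ alg : PassAlg s,
        (∀ x : List Base, x.length = n → alternations x ≤ k →
          (opt x : ℝ) / α ≤ alg.run p x ∧ alg.run p x ≤ opt x) →
        c * k ≤ s * p) ∧
      (∀ (θ : ℝ), 0 < θ → θ ≤ 1 →
        ∀ (Ω : Type) [MeasurableSpace Ω] (μ : Measure Ω) [IsProbabilityMeasure μ]
          (alg : Ω → PassAlg s),
          ((∀ x : List Base, x.length = n → alternations x ≤ k →
              (∀ᵐ ω ∂μ, (alg ω).run p x ≤ opt x) ∧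
              MeasurableSet {ω | (opt x : ℝ) / α ≤ (alg ω).run p x} ∧
              ENNReal.ofReal θ ≤ μ {ω | (opt x : ℝ) / α ≤ (alg ω).run p x}) ∨
            (∀ x : List Base, x.length = n → alternations x ≤ k →
              (∀ᵐ ω ∂μ, (opt x : ℝ) / α ≤ (alg ω).run p x) ∧
              MeasurableSet {ω | (alg ω).run p x ≤ opt x} ∧
              ENNReal.ofReal θ ≤ μ {ω | (alg ω).run p x ≤ opt x})) →
          c * k ≤ s * p + Real.logb 4 (1 / θ)) := by
  obtain ⟨c₁, hc₁, k₁, hmain₁⟩ := never_over h1 h2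
  obtain ⟨c₂, hc₂, k₂, hmain₂⟩ := never_under h1 h2
  have hα : 0 < α := by linarith
  refine ⟨min c₁ c₂, lt_min hc₁ hc₂, max k₁ k₂, ?_⟩
  intro n k hk hkn p s
  have hk1 : k₁ ≤ k := (le_max_left _ _).trans hk
  have hk2 : k₂ ≤ k := (le_max_right _ _).trans hk
  have hkr : (0 : ℝ) ≤ k := by positivity
  have e1 : min c₁ c₂ * k ≤ c₁ * k := mul_le_mul_of_nonneg_right (min_le_left _ _) hkr
  have e2 : min c₁ c₂ * k ≤ c₂ * k := mul_le_mul_of_nonneg_right (min_le_right _ _) hkr
  refine ⟨?_, ?_⟩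
  · intro alg halg
    have h3 := hmain₁ n k hk1 hkn p s 1 one_pos le_rfl Unit (Measure.dirac ()) (fun _ => alg) (by
      intro x hx1 hx2
      obtain ⟨h4, h5⟩ := halg x hx1 hx2
      rw [div_le_iff₀ hα, mul_comm] at h4
      refine ⟨Filter.Eventually.of_forall (fun _ => h5), ?_, ?_⟩
      · exact MeasurableSet.of_discrete
      · simp [h4])
    have h4 : c₁ * k ≤ s * p := by simpa using h3
    exact e1.trans h4
  · intro θ hθ hθ1 Ω _ μ _ alg halg
    have hiff : ∀ (x : List Base) (ω : Ω), (opt x : ℝ) / α ≤ (alg ω).run p x ↔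
        (opt x : ℝ) ≤ α * (alg ω).run p x := by
      intro x ω
      rw [div_le_iff₀ hα, mul_comm]
    simp only [hiff] at halg
    rcases halg with halg | halg
    · exact e1.trans (hmain₁ n k hk1 hkn p s θ hθ hθ1 Ω μ alg halg)
    · exact e2.trans (hmain₂ n k hk2 hkn p s θ hθ hθ1 Ω μ alg halg)

end Pool.Agent.Results.MP_8c24b6_lc.FactorTwoOptimal
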