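import Pool.Agent.Lib.MP_8c24b6_lc.Final

/-!
MP_8c24b6_lc: one-pass approximation of the maximum non-crossing RNA matching beyond factor two for strings with few
alternations between `{A, C}` and `{G, U}`.
-/

namespace Pool.Agent.Results.MP_8c24b6_lc.FewAlternations

open MP8C

/-- There are `0 < ε < 1` and `C` such that for all `n ≥ 2`, `k ≥ 1` one deterministic one-pass streaming algorithm with
`C (k (⌊log₂ n⌋ + 1)) ^ C` bits of memory computes, for every RNA string `x` of length `n` with at most `k`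
alternations between `{A, C}` and `{G, U}` and with `2 (min (#A, #U) + min (#C, #G)) ≥ (1 - ε) n`, a number `X` with
`OPT(x) / (2 - ε) ≤ X ≤ OPT(x)`. -/
theorem result : ∃ ε : ℝ, 0 < ε ∧ ε < 1 ∧ ∃ C : ℕ, ∀ n k : ℕ, 2 ≤ n → 1 ≤ k →
    ∃ alg : StreamAlg (C * (k * (Nat.log 2 n + 1)) ^ C), ∀ x : List Base,
      x.length = n → alternations x ≤ k →
      (1 - ε) * n ≤ 2 * ((min (x.count Base.A) (x.count Base.U) +
        min (x.count Base.C) (x.count Base.G) : ℕ) : ℝ) →
      (opt x : ℝ) ≤ (2 - ε) * alg.run x ∧ alg.run x ≤ opt x :=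
  final

end Pool.Agent.Results.MP_8c24b6_lc.FewAlternations
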